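import Mathlib

/-!
# A convex function on the line is differentiable off a countable set
-/

set_option autoImplicit false

namespace Pool.Agent.Y640.IS

open Set Filter Topology

theorem countable_nondiff {f : ℝ → ℝ} (hf : ConvexOn ℝ univ f) :
    {x | ¬ DifferentiableAt ℝ f x}.Countable := by
  have hin : ∀ x : ℝ, x ∈ interior (univ : Set ℝ) := fun x => by simp
  have hmono : Monotone (fun x => derivWithin f (Ioi x) x) := fun x y hxy =>
    hf.monotoneOn_rightDeriv (hin x) (hin y) hxy
  refine hmono.countable_not_continuousAt.mono ?_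
  intro x hx hc
  apply hx
  have hR := hf.hasDerivWithinAt_rightDeriv_of_mem_interior (hin x)
  have hL := hf.hasDerivWithinAt_leftDeriv_of_mem_interior (hin x)
  have hle := hf.leftDeriv_le_rightDeriv_of_mem_interior (hin x)
  have hge : derivWithin f (Ioi x) x ≤ derivWithin f (Iio x) x := by
    have h1 : Tendsto (fun x => derivWithin f (Ioi x) x) (𝓝[<] x) (𝓝 (derivWithin f (Ioi x) x)) :=
      hc.tendsto.mono_left nhdsWithin_le_nhds
    refine le_of_tendsto h1 ?_
    filter_upwards [self_mem_nhdsWithin] with y hy
    exact (hf.rightDeriv_le_slope_of_mem_interior (hin y) (mem_univ x) hy).trans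
      (hf.slope_le_leftDeriv_of_mem_interior (mem_univ y) (hin x) hy)
  rw [le_antisymm hle hge] at hL
  have h3 := hL.Iic_of_Iio.union hR.Ici_of_Ioi
  rw [Iic_union_Ici] at h3
  exact (hasDerivWithinAt_univ.1 h3).differentiableAt

end Pool.Agent.Y640.IS
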