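import Pool.Agent.Y640.IS.Unif
import Pool.Agent.Y640.IS.Diff

/-!
# Assembly
-/

set_option autoImplicit false

namespace Pool.Agent.Y640.IS

open H29I Finset Filter Topology MeasureTheory

theorem final {Ω : Type} [MeasurableSpace Ω] (P : Measure Ω) [IsProbabilityMeasure P]
    (T : Ω → SimpleGraph ℕ) (hfin : ∀ ω v, {u | (T ω).Adj v u}.Finite)
    (hac : ∀ᵐ ω ∂P, (T ω).IsAcyclic) :
    ∃ φ : ℝ → ℝ → ℝ → ℝ,
      (∀ μ : (n : ℕ) → SimpleGraph (Fin n) → ℝ, IsLaw μ → UniformlySparse μ →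
        LocalLimit μ P T →
        (∀ R ε : ℝ, 0 < ε → Tendsto (fun n => pr μ n (fun G => ∃ β k h : ℝ,
          0 ≤ β ∧ β ≤ R ∧ |k| ≤ R ∧ |h| ≤ R ∧
            ε < |Real.log (ZeIsing β k h G) / n - φ β k h|)) atTop (𝓝 0)) ∧
        ∀ β k h : ℝ, 0 ≤ β →
          Tendsto (fun n => ∑ G, μ n G * |Real.log (ZeIsing β k h G) / n - φ β k h|) atTop
            (𝓝 0)) ∧
      ConvexOn ℝ {x : ℝ × ℝ × ℝ | 0 ≤ x.1} (fun x => φ x.1 x.2.1 x.2.2) ∧
      (∀ β k h : ℝ, 0 ≤ β → φ β (-k) (-h) = φ β k h) ∧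
      (∀ β k : ℝ, 0 ≤ β → {h : ℝ | ¬ DifferentiableAt ℝ (fun s => φ β k s) h}.Countable) ∧
      ∀ β k h a b c m : ℝ, 0 ≤ β → (0 < β ∨ a = 0) →
        HasDerivAt (fun t : ℝ => φ (β + t * a) (k + t * b) (h + t * c)) m 0 →
        ∀ ε : ℝ, 0 < ε → ∃ r : ℝ, 0 < r ∧ ∀ μ : (n : ℕ) → SimpleGraph (Fin n) → ℝ,
          IsLaw μ → UniformlySparse μ → LocalLimit μ P T →
          Whp μ (fun n G => gibbs β k h G (fun σ => ε < |obs a b c G σ / n - m|) ≤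
            2 * Real.exp (-(r * n)) ∧ |gmean β k h a b c G / n - m| ≤ ε) := by
  obtain ⟨φ, h1, h2, h3, h4⟩ := thermo P T hfin hac
  refine ⟨φ, fun μ hl hs hloc => ⟨fun R ε hε => ?_, fun β k h hβ => ?_⟩, h2, h3, ?_, h4⟩
  · exact unif_lim hl (taskP2 μ hl hs) (φ := φ) (fun β k h hβ => h1 μ hl hs hloc β k h hβ) R ε hε
  · exact l1_lim (β := β) (k := k) (h := h) hl hs (h1 μ hl hs hloc β k h hβ)
  · intro β k hβ
    refine countable_nondiff ⟨convex_univ, ?_⟩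
    intro x _ y _ s t hs ht hst
    have h5 := h2.2 (x := (β, k, x)) (y := (β, k, y)) hβ hβ hs ht hst
    simp only [Prod.fst_add, Prod.snd_add, Prod.smul_fst, Prod.smul_snd, smul_eq_mul] at h5 ⊢
    have e1 : s * β + t * β = β := by rw [← add_mul, hst, one_mul]
    have e2 : s * k + t * k = k := by rw [← add_mul, hst, one_mul]
    rw [e1, e2] at h5
    exact h5

end Pool.Agent.Y640.IS
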