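import Pool.Agent.H29Ising.Main

/-!
# Finite volume: convexity and Gibbs bounds
-/

set_option autoImplicit false

namespace Pool.Agent.Y640.IS

open H29I Finset

/-- the Hamiltonian pieces: edge energy, degree weighted magnetization, magnetization -/
noncomputable def en {n : ℕ} (G : SimpleGraph (Fin n)) (σ : Fin n → Bool) : ℝ :=
  ∑ p ∈ oe G, sp (σ p.1) * sp (σ p.2)

/-- `Σ d_v σ_v` -/
noncomputable def dmg {n : ℕ} (G : SimpleGraph (Fin n)) (σ : Fin n → Bool) : ℝ :=
  ∑ v, (dg G v : ℝ) * sp (σ v)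

/-- `Σ σ_v` -/
noncomputable def smg {n : ℕ} (_G : SimpleGraph (Fin n)) (σ : Fin n → Bool) : ℝ :=
  ∑ v, sp (σ v)

/-- the exponent is linear in the parameters -/
lemma wt_eq {n : ℕ} (β k h : ℝ) (G : SimpleGraph (Fin n)) (σ : Fin n → Bool) :
    wt β (oe G) (fun v => k * (dg G v : ℝ) + h) σ =
      Real.exp (β * en G σ + k * dmg G σ + h * smg G σ) := by
  unfold wt en dmg smg
  congr 1
  rw [Finset.mul_sum (a := k), Finset.mul_sum (a := h), add_assoc, ← Finset.sum_add_distrib]
  congr 1
  refine Finset.sum_congr rfl fun v _ => ?_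
  ring

lemma Z_eq {n : ℕ} (β k h : ℝ) (G : SimpleGraph (Fin n)) :
    ZeIsing β k h G = ∑ σ : Fin n → Bool, Real.exp (β * en G σ + k * dmg G σ + h * smg G σ) := by
  unfold ZeIsing Zp
  exact Finset.sum_congr rfl fun σ _ => wt_eq β k h G σ

/-- the observable of a direction `(a, b, c)` in parameter space -/
noncomputable def obs (a b c : ℝ) {n : ℕ} (G : SimpleGraph (Fin n)) (σ : Fin n → Bool) : ℝ :=
  a * (∑ p ∈ oe G, sp (σ p.1) * sp (σ p.2)) + b * (∑ v, (dg G v : ℝ) * sp (σ v)) +
    c * ∑ v, sp (σ v)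

/-- the Gibbs probability of an event in the extended Ising model -/
noncomputable def gibbs (β k h : ℝ) {n : ℕ} (G : SimpleGraph (Fin n))
    (A : (Fin n → Bool) → Prop) : ℝ := by
  classical
  exact (∑ σ : Fin n → Bool, if A σ then wt β (oe G) (fun v => k * (dg G v : ℝ) + h) σ else 0) /
    ZeIsing β k h G

lemma Z_pos {n : ℕ} (β k h : ℝ) (G : SimpleGraph (Fin n)) : 0 < ZeIsing β k h G := by
  rw [Z_eq]
  exact Finset.sum_pos (fun _ _ => Real.exp_pos _) Finset.univ_nonempty

/-- log-sum-exp is convex (weights `s + t = 1`) -/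
lemma lse_convex {ι : Type} [Fintype ι] [Nonempty ι] (u v : ι → ℝ) (s t : ℝ) (hs : 0 < s)
    (ht : 0 < t) (hst : s + t = 1) :
    Real.log (∑ i, Real.exp (s * u i + t * v i)) ≤
      s * Real.log (∑ i, Real.exp (u i)) + t * Real.log (∑ i, Real.exp (v i)) := by
  set U := ∑ i, Real.exp (u i) with hU
  set W := ∑ i, Real.exp (v i) with hW
  have hU0 : 0 < U := Finset.sum_pos (fun _ _ => Real.exp_pos _) Finset.univ_nonempty
  have hW0 : 0 < W := Finset.sum_pos (fun _ _ => Real.exp_pos _) Finset.univ_nonempty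
  have hX0 : 0 < ∑ i, Real.exp (s * u i + t * v i) :=
    Finset.sum_pos (fun _ _ => Real.exp_pos _) Finset.univ_nonempty
  rw [← Real.log_exp (s * Real.log U + t * Real.log W)]
  refine Real.log_le_log hX0 ?_
  have key : ∀ i, Real.exp (s * u i + t * v i) ≤
      Real.exp (s * Real.log U + t * Real.log W) *
        (s * (Real.exp (u i) / U) + t * (Real.exp (v i) / W)) := by
    intro i
    have h1 : Real.exp (s * u i + t * v i) = Real.exp (s * Real.log U + t * Real.log W) *
        Real.exp (s * (u i - Real.log U) + t * (v i - Real.log W)) := by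
      rw [← Real.exp_add]
      congr 1
      ring
    rw [h1]
    refine mul_le_mul_of_nonneg_left ?_ (Real.exp_pos _).le
    have h2 := convexOn_exp.2 (Set.mem_univ (u i - Real.log U)) (Set.mem_univ (v i - Real.log W))
      hs.le ht.le hst
    simp only [smul_eq_mul] at h2
    refine h2.trans (le_of_eq ?_)
    rw [Real.exp_sub, Real.exp_sub, Real.exp_log hU0, Real.exp_log hW0]
  calc ∑ i, Real.exp (s * u i + t * v i)
      ≤ ∑ i, Real.exp (s * Real.log U + t * Real.log W) *
        (s * (Real.exp (u i) / U) + t * (Real.exp (v i) / W)) :=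
        Finset.sum_le_sum fun i _ => key i
    _ = Real.exp (s * Real.log U + t * Real.log W) * (s * (U / U) + t * (W / W)) := by
        rw [← Finset.mul_sum, Finset.sum_add_distrib, ← Finset.mul_sum, ← Finset.mul_sum,
          ← Finset.sum_div, ← Finset.sum_div]
    _ = Real.exp (s * Real.log U + t * Real.log W) := by
        rw [div_self hU0.ne', div_self hW0.ne', mul_one, mul_one, hst, mul_one]

/-- the finite volume pressure is jointly convex -/
lemma logZ_convex {n : ℕ} (G : SimpleGraph (Fin n)) (β k h β' k' h' s t : ℝ) (hs : 0 < s)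
    (ht : 0 < t) (hst : s + t = 1) :
    Real.log (ZeIsing (s * β + t * β') (s * k + t * k') (s * h + t * h') G) / n ≤
      s * (Real.log (ZeIsing β k h G) / n) + t * (Real.log (ZeIsing β' k' h' G) / n) := by
  rw [Z_eq, Z_eq, Z_eq]
  have h1 := lse_convex (fun σ : Fin n → Bool => β * en G σ + k * dmg G σ + h * smg G σ)
    (fun σ => β' * en G σ + k' * dmg G σ + h' * smg G σ) s t hs ht hst
  have h2 : ∀ σ : Fin n → Bool, (s * β + t * β') * en G σ + (s * k + t * k') * dmg G σ +
      (s * h + t * h') * smg G σ = s * (β * en G σ + k * dmg G σ + h * smg G σ) +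
      t * (β' * en G σ + k' * dmg G σ + h' * smg G σ) := fun σ => by ring
  rw [Finset.sum_congr rfl fun σ _ => by rw [h2 σ]]
  rw [← mul_div_assoc, ← mul_div_assoc, ← add_div]
  exact div_le_div_of_nonneg_right h1 (Nat.cast_nonneg n)

/-- spin flip -/
lemma Z_flip {n : ℕ} (β k h : ℝ) (G : SimpleGraph (Fin n)) :
    ZeIsing β (-k) (-h) G = ZeIsing β k h G := by
  rw [Z_eq, Z_eq]
  have hsp : ∀ b : Bool, sp (!b) = - sp b := fun b => by cases b <;> simp [sp]
  have hinv : Function.Involutive (fun σ : Fin n → Bool => fun v => !(σ v)) := fun σ => by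
    funext v; simp
  refine Fintype.sum_equiv (hinv.toPerm _) _ _ fun σ => ?_
  have e1 : en G (fun v => !(σ v)) = en G σ := by
    unfold en
    exact Finset.sum_congr rfl fun p _ => by rw [hsp, hsp]; ring
  have e2 : dmg G (fun v => !(σ v)) = - dmg G σ := by
    unfold dmg
    rw [← Finset.sum_neg_distrib]
    exact Finset.sum_congr rfl fun p _ => by rw [hsp]; ring
  have e3 : smg G (fun v => !(σ v)) = - smg G σ := by
    unfold smg
    rw [← Finset.sum_neg_distrib]
    exact Finset.sum_congr rfl fun p _ => by rw [hsp]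
  change _ = Real.exp (β * en G (fun v => !(σ v)) + k * dmg G (fun v => !(σ v)) +
    h * smg G (fun v => !(σ v)))
  rw [e1, e2, e3]
  congr 1
  ring

/-- Chernoff bound for the Gibbs measure -/
lemma gibbs_upper {n : ℕ} (hn : 0 < n) (G : SimpleGraph (Fin n)) (β k h a b c x δ : ℝ)
    (hδ : 0 < δ) :
    gibbs β k h G (fun σ => x < obs a b c G σ / n) ≤
      Real.exp (n * (Real.log (ZeIsing (β + δ * a) (k + δ * b) (h + δ * c) G) / n -
        Real.log (ZeIsing β k h G) / n - δ * x)) := by
  classical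
  have hnr : (0 : ℝ) < n := by exact_mod_cast hn
  have hZ := Z_pos β k h G
  have hZ' := Z_pos (β + δ * a) (k + δ * b) (h + δ * c) G
  unfold gibbs
  rw [div_le_iff₀ hZ]
  have e : Real.exp (n * (Real.log (ZeIsing (β + δ * a) (k + δ * b) (h + δ * c) G) / n -
      Real.log (ZeIsing β k h G) / n - δ * x)) * ZeIsing β k h G =
      Real.exp (-(n * δ * x)) * ZeIsing (β + δ * a) (k + δ * b) (h + δ * c) G := by
    have h1 : n * (Real.log (ZeIsing (β + δ * a) (k + δ * b) (h + δ * c) G) / n -
        Real.log (ZeIsing β k h G) / n - δ * x) =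
        Real.log (ZeIsing (β + δ * a) (k + δ * b) (h + δ * c) G) -
        Real.log (ZeIsing β k h G) - n * δ * x := by
      field_simp
    rw [h1, sub_eq_add_neg, Real.exp_add, Real.exp_sub, Real.exp_log hZ, Real.exp_log hZ']
    field_simp
  rw [e, Z_eq (β + δ * a), Finset.mul_sum]
  refine Finset.sum_le_sum fun σ _ => ?_
  by_cases hA : x < obs a b c G σ / n
  · rw [if_pos hA, wt_eq, ← Real.exp_add]
    refine Real.exp_le_exp.2 ?_
    rw [lt_div_iff₀ hnr] at hA
    have h2 : obs a b c G σ = a * en G σ + b * dmg G σ + c * smg G σ := rfl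
    rw [h2] at hA
    nlinarith [mul_lt_mul_of_pos_left hA hδ]
  · rw [if_neg hA]
    positivity

end Pool.Agent.Y640.IS
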