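import Pool.Agent.Y640.IS.Univ
import Pool.Agent.Y640.IS.Gibbs

/-!
# Passage to the limit
-/

set_option autoImplicit false

namespace Pool.Agent.Y640.IS

open H29I Finset Filter Topology MeasureTheory

/-- events that hold with probability tending to one -/
def Whp (μ : (n : ℕ) → SimpleGraph (Fin n) → ℝ) (S : (n : ℕ) → SimpleGraph (Fin n) → Prop) :
    Prop := Tendsto (fun n => pr μ n (fun G => ¬ S n G)) atTop (𝓝 0)

section

variable {μ : (n : ℕ) → SimpleGraph (Fin n) → ℝ}

lemma pr_or_le (hl : IsLaw μ) (n : ℕ) (A B : SimpleGraph (Fin n) → Prop) :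
    pr μ n (fun G => A G ∨ B G) ≤ pr μ n A + pr μ n B := by
  classical
  unfold pr
  rw [← Finset.sum_add_distrib]
  refine Finset.sum_le_sum fun G _ => ?_
  have h0 := hl.1 n G
  by_cases hA : A G <;> by_cases hB : B G <;> simp [hA, hB, h0]

lemma Whp.and (hl : IsLaw μ) {S S' : (n : ℕ) → SimpleGraph (Fin n) → Prop} (h : Whp μ S)
    (h' : Whp μ S') : Whp μ (fun n G => S n G ∧ S' n G) := by
  unfold Whp at h h' ⊢
  have h2 := h.add h'
  rw [add_zero] at h2
  refine squeeze_zero (fun n => P1h133.pr_nonneg hl n _) (fun n => ?_) h2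
  refine le_trans ?_ (pr_or_le hl n _ _)
  refine P1h133.pr_mono hl n fun G hG => ?_
  by_contra hc
  push Not at hc
  exact hG hc

lemma Whp.mono_eventually (hl : IsLaw μ) {S S' : (n : ℕ) → SimpleGraph (Fin n) → Prop}
    (h : Whp μ S) (hS : ∀ᶠ n in atTop, ∀ G, S n G → S' n G) : Whp μ S' := by
  unfold Whp at h ⊢
  refine squeeze_zero' (Eventually.of_forall fun n => P1h133.pr_nonneg hl n _) ?_ h
  filter_upwards [hS] with n hn
  exact P1h133.pr_mono hl n fun G hG hc => hG (hn G hc)

lemma Whp.exists (hl : IsLaw μ) {S : (n : ℕ) → SimpleGraph (Fin n) → Prop} (h : Whp μ S) :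
    ∃ n G, S n G := by
  unfold Whp at h
  obtain ⟨n, hn⟩ := (h.eventually (gt_mem_nhds (show (0 : ℝ) < 1 by norm_num))).exists
  by_contra hc
  push Not at hc
  have h1 := P1h133.pr_compl hl n (fun G => S n G)
  have h2 : pr μ n (fun G => S n G) = 0 := by
    unfold pr
    refine Finset.sum_eq_zero fun G _ => ?_
    rw [if_neg (hc n G)]
  linarith

lemma InProb.whp {X : (n : ℕ) → SimpleGraph (Fin n) → ℝ} {a ε : ℝ} (h : InProb μ X a)
    (hε : 0 < ε) : Whp μ (fun n G => |X n G - a| ≤ ε) := by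
  unfold Whp
  refine (h ε hε).congr fun n => ?_
  congr 1
  funext G
  exact propext not_le.symm

lemma inProb_of_whp {X : (n : ℕ) → SimpleGraph (Fin n) → ℝ} {a : ℝ}
    (h : ∀ ε : ℝ, 0 < ε → Whp μ (fun n G => |X n G - a| ≤ ε)) : InProb μ X a := by
  intro ε hε
  refine (h ε hε).congr fun n => ?_
  congr 1
  funext G
  exact propext not_le

end

/-- Gibbs expectation of the observable of a direction -/
noncomputable def gmean (β k h a b c : ℝ) {n : ℕ} (G : SimpleGraph (Fin n)) : ℝ :=
  ∑ σ : Fin n → Bool, gb β (oe G) (fun v => k * (dg G v : ℝ) + h) σ * obs a b c G σ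

/-- Jensen -/
lemma jensen {n : ℕ} (G : SimpleGraph (Fin n)) (β k h a b c δ : ℝ) :
    δ * gmean β k h a b c G ≤ Real.log (ZeIsing (β + δ * a) (k + δ * b) (h + δ * c) G) -
      Real.log (ZeIsing β k h G) := by
  have hZ := Z_pos β k h G
  have hZ' := Z_pos (β + δ * a) (k + δ * b) (h + δ * c) G
  set L := Real.log (ZeIsing (β + δ * a) (k + δ * b) (h + δ * c) G) -
      Real.log (ZeIsing β k h G) with hL
  have hg : ∀ σ : Fin n → Bool, gb β (oe G) (fun v => k * (dg G v : ℝ) + h) σ =
      Real.exp (β * en G σ + k * dmg G σ + h * smg G σ) / ZeIsing β k h G := by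
    intro σ
    unfold gb
    rw [wt_eq]
    rfl
  have h1 : ∑ σ : Fin n → Bool, gb β (oe G) (fun v => k * (dg G v : ℝ) + h) σ = 1 := by
    rw [Finset.sum_congr rfl fun σ _ => hg σ, ← Finset.sum_div, ← Z_eq, div_self hZ.ne']
  have h2 : ∑ σ : Fin n → Bool, gb β (oe G) (fun v => k * (dg G v : ℝ) + h) σ *
      Real.exp (δ * obs a b c G σ - L) = 1 := by
    have h3 : ∀ σ : Fin n → Bool, gb β (oe G) (fun v => k * (dg G v : ℝ) + h) σ *
        Real.exp (δ * obs a b c G σ - L) =
        Real.exp ((β + δ * a) * en G σ + (k + δ * b) * dmg G σ + (h + δ * c) * smg G σ) /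
          ZeIsing (β + δ * a) (k + δ * b) (h + δ * c) G := by
      intro σ
      have h4 : obs a b c G σ = a * en G σ + b * dmg G σ + c * smg G σ := rfl
      rw [hg σ, h4, hL, Real.exp_sub, Real.exp_sub, Real.exp_log hZ, Real.exp_log hZ']
      have h5 : (β + δ * a) * en G σ + (k + δ * b) * dmg G σ + (h + δ * c) * smg G σ =
          (β * en G σ + k * dmg G σ + h * smg G σ) +
            δ * (a * en G σ + b * dmg G σ + c * smg G σ) := by ring
      rw [h5, Real.exp_add (β * en G σ + k * dmg G σ + h * smg G σ)]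
      generalize Real.exp (β * en G σ + k * dmg G σ + h * smg G σ) = EA
      generalize Real.exp (δ * (a * en G σ + b * dmg G σ + c * smg G σ)) = EB
      field_simp
    rw [Finset.sum_congr rfl fun σ _ => h3 σ, ← Finset.sum_div, ← Z_eq, div_self hZ'.ne']
  have h6 : ∑ σ : Fin n → Bool, gb β (oe G) (fun v => k * (dg G v : ℝ) + h) σ *
      (δ * obs a b c G σ - L + 1) ≤ 1 := by
    refine le_trans (Finset.sum_le_sum fun σ _ => ?_) h2.le
    refine mul_le_mul_of_nonneg_left (Real.add_one_le_exp _) ?_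
    rw [hg σ]
    positivity
  have h7 : ∑ σ : Fin n → Bool, gb β (oe G) (fun v => k * (dg G v : ℝ) + h) σ *
      (δ * obs a b c G σ - L + 1) = δ * gmean β k h a b c G - L + 1 := by
    have h8 : ∀ σ : Fin n → Bool, gb β (oe G) (fun v => k * (dg G v : ℝ) + h) σ *
      (δ * obs a b c G σ - L + 1) =
        δ * (gb β (oe G) (fun v => k * (dg G v : ℝ) + h) σ * obs a b c G σ) +
        gb β (oe G) (fun v => k * (dg G v : ℝ) + h) σ * (1 - L) := fun σ => by ring
    rw [Finset.sum_congr rfl fun σ _ => h8 σ, Finset.sum_add_distrib, ← Finset.mul_sum,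
      ← Finset.sum_mul, h1]
    unfold gmean
    ring
  linarith

lemma jensen_div {n : ℕ} (hn : 0 < n) (G : SimpleGraph (Fin n)) (β k h a b c δ : ℝ)
    (hδ : 0 < δ) :
    gmean β k h a b c G / n ≤ (Real.log (ZeIsing (β + δ * a) (k + δ * b) (h + δ * c) G) / n -
      Real.log (ZeIsing β k h G) / n) / δ := by
  have hnr : (0 : ℝ) < n := by exact_mod_cast hn
  have h1 := jensen G β k h a b c δ
  rw [← sub_div, div_div, div_le_div_iff₀ hnr (by positivity)]
  nlinarith

lemma gmean_neg {n : ℕ} (G : SimpleGraph (Fin n)) (β k h a b c : ℝ) :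
    gmean β k h (-a) (-b) (-c) G = - gmean β k h a b c G := by
  unfold gmean obs
  rw [← Finset.sum_neg_distrib]
  exact Finset.sum_congr rfl fun σ _ => by ring

lemma obs_neg {n : ℕ} (G : SimpleGraph (Fin n)) (a b c : ℝ) (σ : Fin n → Bool) :
    obs (-a) (-b) (-c) G σ = - obs a b c G σ := by
  unfold obs
  ring

lemma gibbs_abs {n : ℕ} (G : SimpleGraph (Fin n)) (β k h a b c m ε : ℝ) :
    gibbs β k h G (fun σ => ε < |obs a b c G σ / n - m|) ≤
      gibbs β k h G (fun σ => m + ε < obs a b c G σ / n) +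
      gibbs β k h G (fun σ => -m + ε < obs (-a) (-b) (-c) G σ / n) := by
  classical
  have hZ := Z_pos β k h G
  unfold gibbs
  rw [← add_div, ← Finset.sum_add_distrib]
  refine div_le_div_of_nonneg_right (Finset.sum_le_sum fun σ _ => ?_) hZ.le
  have hw : 0 ≤ wt β (oe G) (fun v => k * (dg G v : ℝ) + h) σ := by
    rw [wt_eq]
    positivity
  by_cases hA : ε < |obs a b c G σ / n - m|
  · rw [if_pos hA]
    rcases lt_abs.1 hA with h1 | h1
    · rw [if_pos (by linarith : m + ε < obs a b c G σ / n)]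
      have : 0 ≤ (if -m + ε < obs (-a) (-b) (-c) G σ / n then
          wt β (oe G) (fun v => k * (dg G v : ℝ) + h) σ else 0) := by
        split_ifs
        · exact hw
        · exact le_rfl
      linarith
    · have h2 : -m + ε < obs (-a) (-b) (-c) G σ / n := by
        rw [obs_neg, neg_div]
        linarith
      rw [if_pos h2]
      have : 0 ≤ (if m + ε < obs a b c G σ / n then
          wt β (oe G) (fun v => k * (dg G v : ℝ) + h) σ else 0) := by
        split_ifs
        · exact hw
        · exact le_rfl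
      linarith
  · rw [if_neg hA]
    refine add_nonneg ?_ ?_ <;>
    · split_ifs
      · exact hw
      · exact le_rfl

end Pool.Agent.Y640.IS
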