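import Pool.Agent.Y640.IS.Thermo

/-!
# Convergence in mean of the pressure
-/

set_option autoImplicit false

namespace Pool.Agent.Y640.IS

open H29I Finset Filter Topology MeasureTheory

lemma high_mean {μ : (n : ℕ) → SimpleGraph (Fin n) → ℝ} (hus : UniformlySparse μ) {ε : ℝ}
    (hε : 0 < ε) : ∃ K N : ℕ, ∀ n, N ≤ n → ∑ G, μ n G *
      ((∑ v, (if dg G v ≤ K then (0 : ℝ) else dg G v)) / n) ≤ ε := by
  obtain ⟨p, D, hp, hp1, hD, hfr, hdeg⟩ := hus
  have h1 := hD.tendsto_sum_nat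
  obtain ⟨K, hK⟩ := eventually_atTop.1
    (h1.eventually (lt_mem_nhds (show D - ε / 2 < D by linarith)))
  have h2 := hK (K + 1) (Nat.le_succ K)
  have hE : ∀ n, ∑ G : SimpleGraph (Fin n), μ n G *
      ((∑ v, (if dg G v ≤ K then (0 : ℝ) else dg G v)) / n) =
      (∑ G : SimpleGraph (Fin n), μ n G * ((∑ v, (dg G v : ℝ)) / n)) -
        ∑ k ∈ range (K + 1), (k : ℝ) * ∑ G, μ n G * frd G k := by
    intro n
    have h3 : ∀ G ∈ (univ : Finset (SimpleGraph (Fin n))), μ n G *
        ((∑ v, (if dg G v ≤ K then (0 : ℝ) else dg G v)) / n) =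
        μ n G * ((∑ v, (dg G v : ℝ)) / n) -
          ∑ k ∈ range (K + 1), (k : ℝ) * (μ n G * frd G k) := by
      intro G _
      rw [P2.split, mul_sub, Finset.mul_sum]
      congr 1
      refine sum_congr rfl fun k _ => ?_
      ring
    rw [Finset.sum_congr rfl h3, Finset.sum_sub_distrib, Finset.sum_comm]
    congr 1
    refine sum_congr rfl fun k _ => ?_
    rw [Finset.mul_sum]
  have hlim : Tendsto (fun n => ∑ G : SimpleGraph (Fin n), μ n G *
      ((∑ v, (if dg G v ≤ K then (0 : ℝ) else dg G v)) / n)) atTop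
      (𝓝 (D - ∑ k ∈ range (K + 1), (k : ℝ) * p k)) := by
    simp_rw [hE]
    exact hdeg.sub (tendsto_finsetSum _ fun k _ => (hfr k).const_mul _)
  have hlt : D - ∑ k ∈ range (K + 1), (k : ℝ) * p k < ε := by linarith
  obtain ⟨N, hN⟩ := eventually_atTop.1 (hlim.eventually (gt_mem_nhds hlt))
  exact ⟨K, N, fun n hn => (hN n hn).le⟩

lemma sp_abs (b : Bool) : |sp b| = 1 := by cases b <;> simp [sp]

lemma card_oe_le {n : ℕ} (G : SimpleGraph (Fin n)) : ((oe G).card : ℝ) ≤ ∑ v, (dg G v : ℝ) := by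
  classical
  have h1 : (oe G).card ≤ ∑ v, dg G v := by
    unfold oe dg
    simp only [Finset.card_filter]
    rw [Fintype.sum_prod_type]
    refine Finset.sum_le_sum fun u _ => Finset.sum_le_sum fun v _ => ?_
    by_cases h2 : G.Adj u v
    · simp only [h2, and_true, if_true]
      split_ifs <;> simp
    · simp [h2]
  calc ((oe G).card : ℝ) ≤ ((∑ v, dg G v : ℕ) : ℝ) := by exact_mod_cast h1
    _ = _ := by push_cast; rfl

lemma expo_abs {n : ℕ} (G : SimpleGraph (Fin n)) (β k h : ℝ) (σ : Fin n → Bool) :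
    |β * en G σ + k * dmg G σ + h * smg G σ| ≤
      (|β| + |k|) * (∑ v, (dg G v : ℝ)) + |h| * n := by
  have h1 : |en G σ| ≤ ∑ v, (dg G v : ℝ) := by
    unfold en
    refine (Finset.abs_sum_le_sum_abs _ _).trans ?_
    refine le_trans (le_of_eq ?_) (card_oe_le G)
    simp [abs_mul, sp_abs]
  have h2 : |dmg G σ| ≤ ∑ v, (dg G v : ℝ) := by
    unfold dmg
    refine (Finset.abs_sum_le_sum_abs _ _).trans ?_
    refine Finset.sum_le_sum fun v _ => ?_
    rw [abs_mul, sp_abs, mul_one, Nat.abs_cast]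
  have h3 : |smg G σ| ≤ n := by
    unfold smg
    refine (Finset.abs_sum_le_sum_abs _ _).trans ?_
    simp [sp_abs]
  calc |β * en G σ + k * dmg G σ + h * smg G σ|
      ≤ |β * en G σ| + |k * dmg G σ| + |h * smg G σ| := abs_add_three _ _ _
    _ = |β| * |en G σ| + |k| * |dmg G σ| + |h| * |smg G σ| := by
        rw [abs_mul, abs_mul, abs_mul]
    _ ≤ |β| * (∑ v, (dg G v : ℝ)) + |k| * (∑ v, (dg G v : ℝ)) + |h| * n := by gcongr
    _ = _ := by ring

lemma logZ_abs {n : ℕ} (G : SimpleGraph (Fin n)) (β k h : ℝ) :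
    |Real.log (ZeIsing β k h G)| ≤
      n * Real.log 2 + ((|β| + |k|) * (∑ v, (dg G v : ℝ)) + |h| * n) := by
  set M := (|β| + |k|) * (∑ v, (dg G v : ℝ)) + |h| * n with hM
  have hZ := Z_pos β k h G
  have hcard : (Fintype.card (Fin n → Bool) : ℝ) = 2 ^ n := by simp
  have hup : ZeIsing β k h G ≤ 2 ^ n * Real.exp M := by
    rw [Z_eq]
    calc ∑ σ : Fin n → Bool, Real.exp (β * en G σ + k * dmg G σ + h * smg G σ)
        ≤ ∑ _σ : Fin n → Bool, Real.exp M := Finset.sum_le_sum fun σ _ =>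
          Real.exp_le_exp.2 ((le_abs_self _).trans (expo_abs G β k h σ))
      _ = 2 ^ n * Real.exp M := by
          rw [Finset.sum_const, nsmul_eq_mul, Finset.card_univ, hcard]
  have hlo : Real.exp (-M) ≤ ZeIsing β k h G := by
    rw [Z_eq]
    refine le_trans ?_ (Finset.single_le_sum (fun σ _ => (Real.exp_pos _).le)
      (Finset.mem_univ (fun _ : Fin n => true)))
    exact Real.exp_le_exp.2 (neg_le_of_abs_le (expo_abs G β k h _))
  have h1 : Real.log (ZeIsing β k h G) ≤ n * Real.log 2 + M := by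
    have := Real.log_le_log hZ hup
    rwa [Real.log_mul (by positivity) (Real.exp_pos _).ne', Real.log_pow, Real.log_exp] at this
  have h2 : -M ≤ Real.log (ZeIsing β k h G) := by
    have := Real.log_le_log (Real.exp_pos _) hlo
    rwa [Real.log_exp] at this
  have h3 : 0 ≤ (n : ℝ) * Real.log 2 := mul_nonneg (Nat.cast_nonneg n) (Real.log_nonneg one_le_two)
  rw [abs_le]
  constructor <;> linarith

lemma ps_abs {n : ℕ} (hn : 0 < n) (G : SimpleGraph (Fin n)) (β k h : ℝ) (K : ℕ) :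
    |ps β k h n G| ≤ Real.log 2 + |h| + (|β| + |k|) * K +
      (|β| + |k|) * ((∑ v, (if dg G v ≤ K then (0 : ℝ) else dg G v)) / n) := by
  have hnr : (0 : ℝ) < n := by exact_mod_cast hn
  have h1 := logZ_abs G β k h
  have h2 : ∑ v, (dg G v : ℝ) ≤ n * K + ∑ v, (if dg G v ≤ K then (0 : ℝ) else dg G v) := by
    have : (n : ℝ) * K = ∑ _v : Fin n, (K : ℝ) := by simp
    rw [this, ← Finset.sum_add_distrib]
    refine Finset.sum_le_sum fun v _ => ?_
    split_ifs with h3
    · rw [add_zero]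
      exact_mod_cast h3
    · have : (0 : ℝ) ≤ K := Nat.cast_nonneg K
      linarith
  unfold ps
  rw [abs_div, Nat.abs_cast, div_le_iff₀ hnr]
  have h4 : (Real.log 2 + |h| + (|β| + |k|) * K +
      (|β| + |k|) * ((∑ v, (if dg G v ≤ K then (0 : ℝ) else dg G v)) / n)) * n =
      n * Real.log 2 + |h| * n + (|β| + |k|) *
        (n * K + ∑ v, (if dg G v ≤ K then (0 : ℝ) else dg G v)) := by
    field_simp
    ring
  rw [h4]
  have h5 : 0 ≤ |β| + |k| := by positivity
  have h6 := mul_le_mul_of_nonneg_left h2 h5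
  linarith

/-- convergence in mean -/
theorem l1_lim {μ : (n : ℕ) → SimpleGraph (Fin n) → ℝ} (hl : IsLaw μ) (hus : UniformlySparse μ)
    {β k h φ : ℝ} (hφ : InProb μ (ps β k h) φ) :
    Tendsto (fun n => ∑ G, μ n G * |ps β k h n G - φ|) atTop (𝓝 0) := by
  classical
  rw [Metric.tendsto_atTop]
  intro ε hε
  set c : ℝ := |β| + |k| with hc
  have hc0 : 0 ≤ c := by positivity
  obtain ⟨K, N, hN⟩ := high_mean hus (show 0 < ε / (4 * (c + 1)) by positivity)
  set C : ℝ := Real.log 2 + |h| + c * K + |φ| with hC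
  have hC0 : 0 ≤ C := by
    have := Real.log_nonneg one_le_two
    positivity
  have hpr := hφ (ε / 4) (by positivity)
  obtain ⟨N', hN'⟩ := eventually_atTop.1
    (hpr.eventually (gt_mem_nhds (show (0 : ℝ) < ε / (4 * (C + 1)) by positivity)))
  refine ⟨max (max N N') 1, fun n hn => ?_⟩
  have hn0 : 0 < n := by omega
  have hb1 := hN n (by omega)
  have hb2 := hN' n (by omega)
  have hnn : 0 ≤ ∑ G, μ n G * |ps β k h n G - φ| :=
    Finset.sum_nonneg fun G _ => mul_nonneg (hl.1 n G) (abs_nonneg _)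
  rw [Real.dist_eq, sub_zero, abs_of_nonneg hnn]
  have hpt : ∀ G : SimpleGraph (Fin n), μ n G * |ps β k h n G - φ| ≤
      μ n G * (ε / 4) + C * (if ε / 4 < |ps β k h n G - φ| then μ n G else 0) +
        c * (μ n G * ((∑ v, (if dg G v ≤ K then (0 : ℝ) else dg G v)) / n)) := by
    intro G
    have h0 := hl.1 n G
    have hX : 0 ≤ (∑ v, (if dg G v ≤ K then (0 : ℝ) else dg G v)) / n := by
      refine div_nonneg (Finset.sum_nonneg fun v _ => ?_) (Nat.cast_nonneg n)
      split_ifs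
      · exact le_rfl
      · positivity
    by_cases hG : ε / 4 < |ps β k h n G - φ|
    · rw [if_pos hG]
      have h1 := ps_abs hn0 G β k h K
      have h2 : |ps β k h n G - φ| ≤ |ps β k h n G| + |φ| := abs_sub _ _
      have h3 : |ps β k h n G - φ| ≤ ε / 4 + C +
          c * ((∑ v, (if dg G v ≤ K then (0 : ℝ) else dg G v)) / n) := by
        rw [hC]
        linarith
      have h4 := mul_le_mul_of_nonneg_left h3 h0
      linarith [h4, mul_comm C (μ n G), mul_left_comm c (μ n G)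
        ((∑ v, (if dg G v ≤ K then (0 : ℝ) else dg G v)) / n),
        mul_add (μ n G) (ε / 4 + C) (c * ((∑ v, (if dg G v ≤ K then (0 : ℝ) else dg G v)) / n)),
        mul_add (μ n G) (ε / 4) C]
    · rw [if_neg hG, mul_zero, add_zero]
      have h4 := mul_le_mul_of_nonneg_left (not_lt.1 hG) h0
      have h5 := mul_nonneg hc0 (mul_nonneg h0 hX)
      linarith
  have hsum : ∑ G, μ n G * |ps β k h n G - φ| ≤ ε / 4 + C * pr μ n
      (fun G => ε / 4 < |ps β k h n G - φ|) + c * ∑ G, μ n G *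
        ((∑ v, (if dg G v ≤ K then (0 : ℝ) else dg G v)) / n) := by
    refine (Finset.sum_le_sum fun G _ => hpt G).trans (le_of_eq ?_)
    rw [Finset.sum_add_distrib, Finset.sum_add_distrib, ← Finset.sum_mul, hl.2 n, one_mul,
      ← Finset.mul_sum, ← Finset.mul_sum]
    congr 2
  have hp0 : 0 ≤ pr μ n (fun G => ε / 4 < |ps β k h n G - φ|) := P1h133.pr_nonneg hl n _
  have e1 : C * pr μ n (fun G => ε / 4 < |ps β k h n G - φ|) ≤ ε / 4 := by
    calc C * pr μ n (fun G => ε / 4 < |ps β k h n G - φ|)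
        ≤ (C + 1) * (ε / (4 * (C + 1))) := by
          refine mul_le_mul (by linarith) hb2.le hp0 (by positivity)
      _ = ε / 4 := by field_simp
  have e2 : c * ∑ G, μ n G * ((∑ v, (if dg G v ≤ K then (0 : ℝ) else dg G v)) / n) ≤ ε / 4 := by
    calc c * ∑ G, μ n G * ((∑ v, (if dg G v ≤ K then (0 : ℝ) else dg G v)) / n)
        ≤ c * (ε / (4 * (c + 1))) := mul_le_mul_of_nonneg_left hb1 hc0
      _ ≤ (c + 1) * (ε / (4 * (c + 1))) := by
          refine mul_le_mul_of_nonneg_right (by linarith) (by positivity)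
      _ = ε / 4 := by field_simp
  linarith

end Pool.Agent.Y640.IS
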