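import Pool.Agent.Y640.IS.Limit

/-!
# The limiting pressure: universality, convexity and the law of large numbers
-/

set_option autoImplicit false

namespace Pool.Agent.Y640.IS

open H29I Finset Filter Topology MeasureTheory

/-- the finite volume pressure -/
noncomputable def ps (β k h : ℝ) : (n : ℕ) → SimpleGraph (Fin n) → ℝ :=
  fun (n : ℕ) (G : SimpleGraph (Fin n)) => Real.log (ZeIsing β k h G) / n

lemma near_derivative {φ : ℝ → ℝ → ℝ → ℝ} {β k h a b c m ε : ℝ} (hβ : 0 ≤ β)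
    (hab : 0 < β ∨ a = 0) (hε : 0 < ε)
    (hd : HasDerivAt (fun t : ℝ => φ (β + t * a) (k + t * b) (h + t * c)) m 0) :
    ∃ δ : ℝ, 0 < δ ∧ 0 ≤ β + δ * a ∧ 0 ≤ β + δ * (-a) ∧
      φ (β + δ * a) (k + δ * b) (h + δ * c) - φ β k h ≤ δ * (m + ε) ∧
      φ (β + δ * (-a)) (k + δ * (-b)) (h + δ * (-c)) - φ β k h ≤ δ * (-m + ε) := by
  have h1 := (hasDerivAt_iff_isLittleO.1 hd).def hε
  have h2 : ∀ᶠ t : ℝ in 𝓝 0, 0 ≤ β + t * a := by
    rcases hab with hb | ha
    · have hc : Tendsto (fun t : ℝ => β + t * a) (𝓝 0) (𝓝 (β + 0 * a)) :=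
        (continuous_const.add (continuous_id.mul continuous_const)).tendsto 0
      rw [zero_mul, add_zero] at hc
      filter_upwards [hc.eventually (lt_mem_nhds hb)] with t ht
      exact ht.le
    · refine Eventually.of_forall fun t => ?_
      rw [ha, mul_zero, add_zero]
      exact hβ
  obtain ⟨ρ, hρ, hall⟩ := Metric.eventually_nhds_iff.1 (h1.and h2)
  have hp := hall (y := ρ / 2) (by rw [Real.dist_eq, sub_zero, abs_of_pos (by positivity)]; linarith)
  have hm := hall (y := -(ρ / 2)) (by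
    rw [Real.dist_eq, sub_zero, abs_neg, abs_of_pos (by positivity)]; linarith)
  obtain ⟨hp1, hp2⟩ := hp
  obtain ⟨hm1, hm2⟩ := hm
  simp only [sub_zero, zero_mul, add_zero, smul_eq_mul, Real.norm_eq_abs] at hp1 hm1
  rw [abs_of_pos (by positivity : 0 < ρ / 2)] at hp1
  rw [abs_neg, abs_of_pos (by positivity : 0 < ρ / 2)] at hm1
  have hp3 := (abs_le.1 hp1).2
  have hm3 := (abs_le.1 hm1).2
  have e1 : ρ / 2 * (-a) = -(ρ / 2) * a := by ring
  have e2 : ρ / 2 * (-b) = -(ρ / 2) * b := by ring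
  have e3 : ρ / 2 * (-c) = -(ρ / 2) * c := by ring
  refine ⟨ρ / 2, by positivity, hp2, ?_, ?_, ?_⟩
  · rw [e1]
    exact hm2
  · linarith
  · rw [e1, e2, e3]
    linarith

section

variable {μ : (n : ℕ) → SimpleGraph (Fin n) → ℝ}

lemma upper_conc (hl : IsLaw μ) {β k h a b c x ε δ A B : ℝ} (hA : InProb μ (ps β k h) A)
    (hB : InProb μ (ps (β + δ * a) (k + δ * b) (h + δ * c)) B) (hδ : 0 < δ) (hε : 0 < ε)
    (hAB : B - A ≤ δ * (x - 2 * ε)) :
    Whp μ (fun n G => gibbs β k h G (fun σ => x < obs a b c G σ / n) ≤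
      Real.exp (-(δ * ε * n)) ∧ gmean β k h a b c G / n ≤ x) := by
  have h1 := (hA.whp (show 0 < δ * ε / 2 by positivity)).and hl
    (hB.whp (show 0 < δ * ε / 2 by positivity))
  refine h1.mono_eventually hl ?_
  filter_upwards [eventually_gt_atTop 0] with n hn G hG
  obtain ⟨hG1, hG2⟩ := hG
  rw [abs_le] at hG1 hG2
  simp only [ps] at hG1 hG2
  have hnr : (0 : ℝ) < n := by exact_mod_cast hn
  have hdiff : Real.log (ZeIsing (β + δ * a) (k + δ * b) (h + δ * c) G) / n -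
        Real.log (ZeIsing β k h G) / n ≤ δ * (x - ε) := by
    have e : δ * (x - ε) = δ * (x - 2 * ε) + δ * ε / 2 + δ * ε / 2 := by ring
    rw [e]
    linarith [hG1.1, hG2.2]
  constructor
  · refine (gibbs_upper hn G β k h a b c x δ hδ).trans (Real.exp_le_exp.2 ?_)
    have : Real.log (ZeIsing (β + δ * a) (k + δ * b) (h + δ * c) G) / n -
        Real.log (ZeIsing β k h G) / n - δ * x ≤ -(δ * ε) := by nlinarith
    calc (n : ℝ) * (Real.log (ZeIsing (β + δ * a) (k + δ * b) (h + δ * c) G) / n -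
        Real.log (ZeIsing β k h G) / n - δ * x) ≤ n * (-(δ * ε)) :=
          mul_le_mul_of_nonneg_left this hnr.le
      _ = -(δ * ε * n) := by ring
  · refine (jensen_div hn G β k h a b c δ hδ).trans ?_
    rw [div_le_iff₀ hδ]
    nlinarith

lemma two_sided (hl : IsLaw μ) {φ : ℝ → ℝ → ℝ → ℝ} {β k h a b c m ε δ : ℝ}
    (hφ : ∀ β k h, 0 ≤ β → InProb μ (ps β k h) (φ β k h)) (hβ : 0 ≤ β) (hδ : 0 < δ)
    (hε : 0 < ε) (h1 : 0 ≤ β + δ * a) (h2 : 0 ≤ β + δ * (-a))
    (h3 : φ (β + δ * a) (k + δ * b) (h + δ * c) - φ β k h ≤ δ * (m + ε / 2))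
    (h4 : φ (β + δ * (-a)) (k + δ * (-b)) (h + δ * (-c)) - φ β k h ≤ δ * (-m + ε / 2)) :
    Whp μ (fun n G => gibbs β k h G (fun σ => ε < |obs a b c G σ / n - m|) ≤
      2 * Real.exp (-(δ * (ε / 4) * n)) ∧ |gmean β k h a b c G / n - m| ≤ ε) := by
  have hε4 : 0 < ε / 4 := by positivity
  have hu := upper_conc hl (x := m + ε) (hφ β k h hβ) (hφ _ (k + δ * b) (h + δ * c) h1) hδ hε4
    (by
      have e : m + ε - 2 * (ε / 4) = m + ε / 2 := by ring
      rw [e]
      exact h3)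
  have hd := upper_conc hl (x := -m + ε) (hφ β k h hβ) (hφ _ (k + δ * (-b)) (h + δ * (-c)) h2)
    hδ hε4
    (by
      have e : -m + ε - 2 * (ε / 4) = -m + ε / 2 := by ring
      rw [e]
      exact h4)
  refine (hu.and hl hd).mono_eventually hl (Eventually.of_forall fun n G hG => ?_)
  obtain ⟨⟨g1, g2⟩, g3, g4⟩ := hG
  constructor
  · refine (gibbs_abs G β k h a b c m ε).trans ?_
    linarith
  · rw [gmean_neg, neg_div] at g4
    rw [abs_le]
    constructor <;> linarith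

end

/-- the thermodynamic limit on locally tree-like sequences -/
theorem thermo {Ω : Type} [MeasurableSpace Ω] (P : Measure Ω) [IsProbabilityMeasure P]
    (T : Ω → SimpleGraph ℕ) (hfin : ∀ ω v, {u | (T ω).Adj v u}.Finite)
    (hac : ∀ᵐ ω ∂P, (T ω).IsAcyclic) :
    ∃ φ : ℝ → ℝ → ℝ → ℝ,
      (∀ μ : (n : ℕ) → SimpleGraph (Fin n) → ℝ, IsLaw μ → UniformlySparse μ →
        LocalLimit μ P T → ∀ β k h : ℝ, 0 ≤ β →
        InProb μ (fun n G => Real.log (ZeIsing β k h G) / n) (φ β k h)) ∧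
      ConvexOn ℝ {x : ℝ × ℝ × ℝ | 0 ≤ x.1} (fun x => φ x.1 x.2.1 x.2.2) ∧
      (∀ β k h : ℝ, 0 ≤ β → φ β (-k) (-h) = φ β k h) ∧
      ∀ β k h a b c m : ℝ, 0 ≤ β → (0 < β ∨ a = 0) →
        HasDerivAt (fun t : ℝ => φ (β + t * a) (k + t * b) (h + t * c)) m 0 →
        ∀ ε : ℝ, 0 < ε → ∃ r : ℝ, 0 < r ∧ ∀ μ : (n : ℕ) → SimpleGraph (Fin n) → ℝ,
          IsLaw μ → UniformlySparse μ → LocalLimit μ P T →
          Whp μ (fun n G => gibbs β k h G (fun σ => ε < |obs a b c G σ / n - m|) ≤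
            2 * Real.exp (-(r * n)) ∧ |gmean β k h a b c G / n - m| ≤ ε) := by
  by_cases hex : ∃ μ₀ : (n : ℕ) → SimpleGraph (Fin n) → ℝ, IsLaw μ₀ ∧ UniformlySparse μ₀ ∧
      LocalLimit μ₀ P T
  · have hall : ∀ x : ℝ × ℝ × ℝ, ∃ φ : ℝ, 0 ≤ x.1 → ∀ μ : (n : ℕ) → SimpleGraph (Fin n) → ℝ,
        IsLaw μ → UniformlySparse μ → LocalLimit μ P T →
        InProb μ (fun n G => Real.log (ZeIsing x.1 x.2.1 x.2.2 G) / n) φ := by
      intro x
      by_cases hx : 0 ≤ x.1
      · obtain ⟨φ, hφ⟩ := exists_phi P T hfin hac x.1 x.2.1 x.2.2 hx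
        exact ⟨φ, fun _ => hφ⟩
      · exact ⟨0, fun h => absurd h hx⟩
    choose Φ hΦ using hall
    have hφ : ∀ μ : (n : ℕ) → SimpleGraph (Fin n) → ℝ, IsLaw μ → UniformlySparse μ →
        LocalLimit μ P T → ∀ β k h : ℝ, 0 ≤ β → InProb μ (ps β k h) (Φ (β, k, h)) :=
      fun μ h1 h2 h3 β k h hβ => hΦ (β, k, h) hβ μ h1 h2 h3
    obtain ⟨μ₀, hl₀, hs₀, hloc₀⟩ := hex
    have hφ₀ := hφ μ₀ hl₀ hs₀ hloc₀
    refine ⟨fun β k h => Φ (β, k, h), hφ, ?_, ?_, ?_⟩
    · have hconv : Convex ℝ {x : ℝ × ℝ × ℝ | 0 ≤ x.1} := by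
        intro x hx y hy s t hs ht hst
        simp only [Set.mem_setOf_eq] at hx hy ⊢
        simp only [Prod.fst_add, Prod.smul_fst, smul_eq_mul]
        positivity
      refine ⟨hconv, ?_⟩
      intro x hx y hy s t hs ht hst
      rcases hs.eq_or_lt with hs0 | hs0
      · have ht1 : t = 1 := by linarith
        simp [← hs0, ht1]
      rcases ht.eq_or_lt with ht0 | ht0
      · have hs1 : s = 1 := by linarith
        simp [← ht0, hs1]
      obtain ⟨β, k, h⟩ := x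
      obtain ⟨β', k', h'⟩ := y
      simp only [Set.mem_setOf_eq] at hx hy
      simp only [Prod.fst_add, Prod.snd_add, Prod.smul_fst, Prod.smul_snd, smul_eq_mul]
      have h0 : 0 ≤ s * β + t * β' := by positivity
      refine le_of_forall_pos_le_add fun ε hε => ?_
      have hε3 : 0 < ε / 3 := by positivity
      have w1 := ((hφ₀ β k h hx).whp hε3).and hl₀ (((hφ₀ β' k' h' hy).whp hε3).and hl₀
        ((hφ₀ (s * β + t * β') (s * k + t * k') (s * h + t * h') h0).whp hε3))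
      obtain ⟨n, G, g1, g2, g3⟩ := w1.exists hl₀
      rw [abs_le] at g1 g2 g3
      have g4 := logZ_convex G β k h β' k' h' s t hs0 ht0 hst
      simp only [ps] at g1 g2 g3
      have g5 : s * (Real.log (ZeIsing β k h G) / n) ≤ s * (Φ (β, k, h) + ε / 3) :=
        mul_le_mul_of_nonneg_left (by linarith [g1.2]) hs
      have g6 : t * (Real.log (ZeIsing β' k' h' G) / n) ≤ t * (Φ (β', k', h') + ε / 3) :=
        mul_le_mul_of_nonneg_left (by linarith [g2.2]) ht
      have g7 : s * (Φ (β, k, h) + ε / 3) + t * (Φ (β', k', h') + ε / 3) =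
          s * Φ (β, k, h) + t * Φ (β', k', h') + (s + t) * (ε / 3) := by ring
      rw [hst, one_mul] at g7
      linarith [g3.1]
    · intro β k h hβ
      refine inProb_unique hl₀ (X := ps β k h) (fun n => n) (fun ε hε => ?_)
        (fun ε hε => hφ₀ β k h hβ ε hε)
      have := hφ₀ β (-k) (-h) hβ ε hε
      simp only [ps, Z_flip] at this
      exact this
    · intro β k h a b c m hβ hab hd ε hε
      obtain ⟨δ, hδ, h1, h2, h3, h4⟩ := near_derivative (φ := fun β k h => Φ (β, k, h)) hβ hab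
        (half_pos hε) hd
      refine ⟨δ * (ε / 4), by positivity, fun μ hl hs hloc => ?_⟩
      exact two_sided hl (φ := fun β k h => Φ (β, k, h)) (hφ μ hl hs hloc) hβ hδ hε h1 h2 h3 h4
  · refine ⟨fun _ _ _ => 0, fun μ hl hs hloc => absurd ⟨μ, hl, hs, hloc⟩ hex, ?_, fun _ _ _ _ => rfl,
      fun β k h a b c m _ _ _ ε _ => ⟨1, one_pos, fun μ hl hs hloc =>
        absurd ⟨μ, hl, hs, hloc⟩ hex⟩⟩
    refine convexOn_const 0 ?_
    intro x hx y hy s t hs ht hst
    simp only [Set.mem_setOf_eq] at hx hy ⊢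
    simp only [Prod.fst_add, Prod.smul_fst, smul_eq_mul]
    positivity

end Pool.Agent.Y640.IS
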