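import Pool.Agent.Y640.IS.Mean

/-!
# Locally uniform convergence in the parameters
-/

set_option autoImplicit false

namespace Pool.Agent.Y640.IS

open H29I Finset Filter Topology MeasureTheory

lemma logZ_le {n : ℕ} (G : SimpleGraph (Fin n)) (β k h β' k' h' : ℝ) :
    Real.log (ZeIsing β k h G) ≤ Real.log (ZeIsing β' k' h' G) +
      ((|β - β'| + |k - k'|) * (∑ v, (dg G v : ℝ)) + |h - h'| * n) := by
  have hZ := Z_pos β k h G
  have hZ' := Z_pos β' k' h' G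
  have h0 : ZeIsing β k h G ≤ Real.exp ((|β - β'| + |k - k'|) * (∑ v, (dg G v : ℝ)) +
      |h - h'| * n) * ZeIsing β' k' h' G := by
    rw [Z_eq, Z_eq, Finset.mul_sum]
    refine Finset.sum_le_sum fun σ _ => ?_
    rw [← Real.exp_add]
    refine Real.exp_le_exp.2 ?_
    have h1 := (le_abs_self _).trans (expo_abs G (β - β') (k - k') (h - h') σ)
    have h2 : β * en G σ + k * dmg G σ + h * smg G σ =
        ((β - β') * en G σ + (k - k') * dmg G σ + (h - h') * smg G σ) +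
          (β' * en G σ + k' * dmg G σ + h' * smg G σ) := by ring
    rw [h2]
    linarith
  have h1 := Real.log_le_log hZ h0
  rw [Real.log_mul (Real.exp_pos _).ne' hZ'.ne', Real.log_exp] at h1
  linarith

lemma ps_lip1 {n : ℕ} (hn : 0 < n) (G : SimpleGraph (Fin n)) (β k h β' k' h' : ℝ) {C : ℝ}
    (hC : (∑ v, (dg G v : ℝ)) / n ≤ C) :
    ps β k h n G - ps β' k' h' n G ≤ (|β - β'| + |k - k'|) * C + |h - h'| := by
  have hnr : (0 : ℝ) < n := by exact_mod_cast hn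
  have h1 := logZ_le G β k h β' k' h'
  have h5 : 0 ≤ |β - β'| + |k - k'| := by positivity
  have h2 := mul_le_mul_of_nonneg_left hC h5
  refine le_trans ?_ (add_le_add_left h2 _)
  unfold ps
  rw [← sub_div, div_le_iff₀ hnr]
  have h3 : ((|β - β'| + |k - k'|) * ((∑ v, (dg G v : ℝ)) / n) + |h - h'|) * n =
      (|β - β'| + |k - k'|) * (∑ v, (dg G v : ℝ)) + |h - h'| * n := by
    field_simp
  rw [h3]
  linarith

lemma ps_lip {n : ℕ} (hn : 0 < n) (G : SimpleGraph (Fin n)) (β k h β' k' h' : ℝ) {C : ℝ}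
    (hC : (∑ v, (dg G v : ℝ)) / n ≤ C) :
    |ps β k h n G - ps β' k' h' n G| ≤ (|β - β'| + |k - k'|) * C + |h - h'| := by
  rw [abs_le]
  constructor
  · have := ps_lip1 hn G β' k' h' β k h hC
    rw [abs_sub_comm β' β, abs_sub_comm k' k, abs_sub_comm h' h] at this
    linarith
  · exact ps_lip1 hn G β k h β' k' h' hC

section

variable {μ : (n : ℕ) → SimpleGraph (Fin n) → ℝ}

lemma deg_bound (hl : IsLaw μ) (hf : FewHigh μ) {η : ℝ} (hη : 0 < η) : ∃ (C : ℝ) (N : ℕ),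
    0 ≤ C ∧ ∀ n, N ≤ n → pr μ n (fun G => ¬ (∑ v, (dg G v : ℝ)) / n ≤ C) ≤ η := by
  obtain ⟨K, N, hN⟩ := hf 1 η one_pos hη
  refine ⟨K + 1, max N 1, by positivity, fun n hn => ?_⟩
  refine le_trans (P1h133.pr_mono hl n fun G hG => ?_) (hN n (by omega))
  have hn0 : 0 < n := by omega
  have hnr : (0 : ℝ) < n := by exact_mod_cast hn0
  rw [not_le, lt_div_iff₀ hnr] at hG
  have h2 : ∑ v, (dg G v : ℝ) ≤ n * K + ∑ v, (if dg G v ≤ K then (0 : ℝ) else dg G v) := by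
    have : (n : ℝ) * K = ∑ _v : Fin n, (K : ℝ) := by simp
    rw [this, ← Finset.sum_add_distrib]
    refine Finset.sum_le_sum fun v _ => ?_
    split_ifs with h3
    · rw [add_zero]
      exact_mod_cast h3
    · have : (0 : ℝ) ≤ K := Nat.cast_nonneg K
      linarith
  linarith

lemma exists_half (hl : IsLaw μ) {S A : (n : ℕ) → SimpleGraph (Fin n) → Prop} (hS : Whp μ S)
    {N : ℕ} (hA : ∀ n, N ≤ n → pr μ n (fun G => ¬ A n G) ≤ 1 / 2) :
    ∃ n, 0 < n ∧ ∃ G, S n G ∧ A n G := by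
  unfold Whp at hS
  obtain ⟨M, hM⟩ := eventually_atTop.1
    (hS.eventually (gt_mem_nhds (show (0 : ℝ) < 1 / 2 by norm_num)))
  refine ⟨max (max N M) 1, by omega, ?_⟩
  have h1 := hA (max (max N M) 1) (by omega)
  have h2 := hM (max (max N M) 1) (by omega)
  have h3 := P1h133.pr_compl hl (max (max N M) 1) (fun G => S _ G)
  have h4 := P1h133.pr_compl hl (max (max N M) 1) (fun G => A _ G)
  exact P1h133.exists_both hl _ (by linarith)

lemma phi_lip (hl : IsLaw μ) (hf : FewHigh μ) {φ : ℝ → ℝ → ℝ → ℝ}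
    (hφ : ∀ β k h, 0 ≤ β → InProb μ (ps β k h) (φ β k h)) : ∃ C : ℝ, 0 ≤ C ∧
    ∀ β k h β' k' h' : ℝ, 0 ≤ β → 0 ≤ β' →
      |φ β k h - φ β' k' h'| ≤ (|β - β'| + |k - k'|) * C + |h - h'| := by
  obtain ⟨C, N, hC, hN⟩ := deg_bound hl hf (show (0 : ℝ) < 1 / 2 by norm_num)
  refine ⟨C, hC, fun β k h β' k' h' hβ hβ' => ?_⟩
  refine le_of_forall_pos_le_add fun ε hε => ?_
  have w := ((hφ β k h hβ).whp (half_pos hε)).and hl ((hφ β' k' h' hβ').whp (half_pos hε))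
  obtain ⟨n, hn, G, ⟨g1, g2⟩, g3⟩ := exists_half hl w hN
  have g4 := ps_lip hn G β k h β' k' h' g3
  rw [abs_le] at g1 g2 g4 ⊢
  constructor <;> linarith [g1.1, g1.2, g2.1, g2.2, g4.1, g4.2]

lemma whp_finite (hl : IsLaw μ) {ι : Type} (t : Finset ι)
    {S : ι → (n : ℕ) → SimpleGraph (Fin n) → Prop} (hS : ∀ x ∈ t, Whp μ (S x)) :
    Whp μ (fun n G => ∀ x ∈ t, S x n G) := by
  classical
  induction t using Finset.induction_on with
  | empty =>
    unfold Whp pr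
    simp
  | insert x t hx ih =>
    have h1 := (hS x (Finset.mem_insert_self x t)).and hl
      (ih fun y hy => hS y (Finset.mem_insert_of_mem hy))
    refine h1.mono_eventually hl (Eventually.of_forall fun n G hG y hy => ?_)
    rcases Finset.mem_insert.1 hy with h | h
    · rw [h]
      exact hG.1
    · exact hG.2 y h

/-- locally uniform convergence -/
theorem unif_lim (hl : IsLaw μ) (hf : FewHigh μ) {φ : ℝ → ℝ → ℝ → ℝ}
    (hφ : ∀ β k h, 0 ≤ β → InProb μ (ps β k h) (φ β k h)) (R ε : ℝ) (hε : 0 < ε) :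
    Tendsto (fun n => pr μ n (fun G => ∃ β k h : ℝ, 0 ≤ β ∧ β ≤ R ∧ |k| ≤ R ∧ |h| ≤ R ∧
      ε < |ps β k h n G - φ β k h|)) atTop (𝓝 0) := by
  obtain ⟨C, hC, hlip⟩ := phi_lip hl hf hφ
  rw [Metric.tendsto_atTop]
  intro η hη
  obtain ⟨C', N, hC', hN⟩ := deg_bound hl hf (half_pos hη)
  set ρ : ℝ := ε / (4 * (2 * (C + C') + 1)) with hρ
  have hρ0 : 0 < ρ := by positivity
  have hcomp : IsCompact (Set.Icc (0 : ℝ) R ×ˢ (Set.Icc (-R) R ×ˢ Set.Icc (-R) R)) :=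
    isCompact_Icc.prod (isCompact_Icc.prod isCompact_Icc)
  obtain ⟨t, htS, htfin, hcov⟩ := hcomp.finite_cover_balls hρ0
  have hw : Whp μ (fun n G => ∀ x ∈ htfin.toFinset,
      |ps x.1 x.2.1 x.2.2 n G - φ x.1 x.2.1 x.2.2| ≤ ε / 4) := by
    refine whp_finite hl htfin.toFinset
      (S := fun x n G => |ps x.1 x.2.1 x.2.2 n G - φ x.1 x.2.1 x.2.2| ≤ ε / 4) fun x hx => ?_
    have hx' := htS (htfin.mem_toFinset.1 hx)
    exact (hφ x.1 x.2.1 x.2.2 hx'.1.1).whp (by positivity)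
  unfold Whp at hw
  obtain ⟨M, hM⟩ := eventually_atTop.1 (hw.eventually (gt_mem_nhds (half_pos hη)))
  refine ⟨max (max N M) 1, fun n hn => ?_⟩
  have h1 := hN n (by omega)
  have h2 := hM n (by omega)
  have hn0 : 0 < n := by omega
  rw [Real.dist_eq, sub_zero, abs_of_nonneg (P1h133.pr_nonneg hl n _)]
  refine lt_of_le_of_lt ((P1h133.pr_mono hl n fun G hG => ?_).trans
    (pr_or_le hl n (fun G => ¬ (∑ v, (dg G v : ℝ)) / n ≤ C')
      (fun G => ¬ ∀ x ∈ htfin.toFinset,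
        |ps x.1 x.2.1 x.2.2 n G - φ x.1 x.2.1 x.2.2| ≤ ε / 4))) (by linarith)
  by_contra hcon
  rw [not_or, not_not, not_not] at hcon
  obtain ⟨hd, hnet⟩ := hcon
  obtain ⟨β, k, h, hβ0, hβR, hkR, hhR, hbad⟩ := hG
  have hmem : ((β, k, h) : ℝ × ℝ × ℝ) ∈
      Set.Icc (0 : ℝ) R ×ˢ (Set.Icc (-R) R ×ˢ Set.Icc (-R) R) :=
    ⟨⟨hβ0, hβR⟩, ⟨(abs_le.1 hkR).1, (abs_le.1 hkR).2⟩, ⟨(abs_le.1 hhR).1, (abs_le.1 hhR).2⟩⟩
  have hc := hcov hmem
  simp only [Set.mem_iUnion] at hc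
  obtain ⟨x, hxt, hxb⟩ := hc
  obtain ⟨β', k', h'⟩ := x
  rw [Metric.mem_ball, Prod.dist_eq, Prod.dist_eq, max_lt_iff, max_lt_iff, Real.dist_eq,
    Real.dist_eq, Real.dist_eq] at hxb
  simp only at hxb
  obtain ⟨d1, d2, d3⟩ := hxb
  have hβ' : 0 ≤ β' := (htS hxt).1.1
  have q1 := ps_lip hn0 G β k h β' k' h' hd
  have q2 := hnet (β', k', h') (htfin.mem_toFinset.2 hxt)
  simp only at q2
  have q3 := hlip β' k' h' β k h hβ' hβ0
  rw [abs_sub_comm β' β, abs_sub_comm k' k, abs_sub_comm h' h] at q3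
  have e1 : (|β - β'| + |k - k'|) * C' + |h - h'| ≤ ρ * (2 * (C + C') + 1) := by
    have := abs_nonneg (β - β')
    have := abs_nonneg (k - k')
    nlinarith [mul_le_mul_of_nonneg_right (add_le_add d1.le d2.le) hC', mul_nonneg hρ0.le hC]
  have e2 : (|β - β'| + |k - k'|) * C + |h - h'| ≤ ρ * (2 * (C + C') + 1) := by
    nlinarith [mul_le_mul_of_nonneg_right (add_le_add d1.le d2.le) hC, mul_nonneg hρ0.le hC']
  have e3 : ρ * (2 * (C + C') + 1) = ε / 4 := by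
    rw [hρ]
    field_simp
  have e4 : |ps β k h n G - φ β k h| ≤ |ps β k h n G - ps β' k' h' n G| +
      |ps β' k' h' n G - φ β' k' h'| + |φ β' k' h' - φ β k h| := by
    have e : ps β k h n G - φ β k h = (ps β k h n G - ps β' k' h' n G) +
      (ps β' k' h' n G - φ β' k' h') + (φ β' k' h' - φ β k h) := by ring
    rw [e]
    exact abs_add_three _ _ _
  linarith

end

end Pool.Agent.Y640.IS
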