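import Pool.Agent.H29Ising.Main

/-!
# Universality of the pressure: the part that only uses truncation and local convergence
-/

set_option autoImplicit false

namespace Pool.Agent.Y640.IS

open H29I Finset Filter Topology MeasureTheory

/-- convergence in probability of a graph statistic to a constant -/
def InProb (μ : (n : ℕ) → SimpleGraph (Fin n) → ℝ) (X : (n : ℕ) → SimpleGraph (Fin n) → ℝ)
    (φ : ℝ) : Prop :=
  ∀ ε : ℝ, 0 < ε → Tendsto (fun n => pr μ n (fun G => ε < |X n G - φ|)) atTop (𝓝 0)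

/-- the edges at vertices of high degree are few, with high probability -/
def FewHigh (μ : (n : ℕ) → SimpleGraph (Fin n) → ℝ) : Prop :=
  ∀ ε η : ℝ, 0 < ε → 0 < η → ∃ K N : ℕ, ∀ n, N ≤ n →
    pr μ n (fun G => ε * n < ∑ v, (if dg G v ≤ K then (0 : ℝ) else dg G v)) ≤ η

theorem final_of_fewHigh (μ : (n : ℕ) → SimpleGraph (Fin n) → ℝ) (hlaw : IsLaw μ)
    (hP2 : FewHigh μ) {Ω : Type} [MeasurableSpace Ω] (P : Measure Ω) [IsProbabilityMeasure P]
    (T : Ω → SimpleGraph ℕ) (hfin : ∀ ω v, {u | (T ω).Adj v u}.Finite)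
    (hac : ∀ᵐ ω ∂P, (T ω).IsAcyclic) (hloc : LocalLimit μ P T) (β k h : ℝ) (hβ : 0 ≤ β) :
    ∃ φ : ℝ, InProb μ (fun n G => Real.log (ZeIsing β k h G) / n) φ := by
  refine taskP1 μ (fun n G => Real.log (ZeIsing β k h G) / n) hlaw ?_
  intro ε η hε hη
  set c : ℝ := β + |k| + |h| + 1 with hcdef
  have hc : 0 < c := by positivity
  obtain ⟨K, N1, hN1⟩ := hP2 (ε / (4 * c)) (η / 3) (by positivity) (by positivity)
  set b : ℝ := |k| * K + |h| with hbdef
  have hb0 : 0 ≤ b := by positivity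
  obtain ⟨R, δ0, hδ0, hcore'⟩ := stmtCore β b (ε / 2) K hβ (by positivity)
  obtain ⟨ℓ, m, H, o, hHac, hHne, hHsum⟩ := taskP3 Ω P T hfin hac hloc.1 (R + 2) (δ0 / 6) (by positivity)
  set p : Fin ℓ → ℝ := fun i => (P {ω | IsoBall (T ω) 0 (R + 2) (H i) (o i)}).toReal with hp
  set δ' : ℝ := (δ0 / 6) / (ℓ + 1) with hδ'def
  have hδ' : 0 < δ' := by positivity
  have hℓδ : (ℓ : ℝ) * δ' ≤ δ0 / 6 := by
    rw [hδ'def, ← mul_div_assoc, div_le_iff₀ (by positivity)]
    nlinarith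
  obtain ⟨N2, hN2⟩ := taskP5 μ hlaw Ω P T hloc (R + 2) ℓ m H o δ' (η / 3) hδ' (by positivity)
  refine ⟨max (max N1 N2) 1, fun n G =>
    (∑ v, (if dg G v ≤ K then (0 : ℝ) else dg G v) ≤ ε / (4 * c) * n) ∧
      ∀ i, |fr G (R + 2) (H i) (o i) - p i| ≤ δ', ?_, ?_⟩
  · intro n hn
    have h1 := hN1 n (by omega)
    have h2 := hN2 n (by omega)
    have h3 := fin_pr_le hlaw n
      (fun G => ∑ v, (if dg G v ≤ K then (0 : ℝ) else dg G v) ≤ ε / (4 * c) * n)
      (fun G => ∀ i, |fr G (R + 2) (H i) (o i) - p i| ≤ δ')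
    have h4 : pr μ n (fun G => ¬ (∑ v, (if dg G v ≤ K then (0 : ℝ) else dg G v) ≤ ε / (4 * c) * n)) =
        pr μ n (fun G => ε / (4 * c) * n < ∑ v, (if dg G v ≤ K then (0 : ℝ) else dg G v)) := by
      congr 1
      funext G
      exact propext not_le
    rw [h4] at h3
    linarith
  · intro n n' hn hn' G G' hS hS'
    have hn0 : 0 < n := by omega
    have hn0' : 0 < n' := by omega
    have hnr : (0 : ℝ) < n := by exact_mod_cast hn0
    have hnr' : (0 : ℝ) < n' := by exact_mod_cast hn0'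
    have : Nonempty (Fin n) := ⟨⟨0, hn0⟩⟩
    have : Nonempty (Fin n') := ⟨⟨0, hn0'⟩⟩
    set bf : ℕ → ℝ := fun j : ℕ => if j ≤ K then k * (j : ℝ) + h else 0 with hbf
    have hbfb : ∀ j, |bf j| ≤ b := by
      intro j
      simp only [hbf]
      split_ifs with hj
      · refine (abs_add_le _ _).trans ?_
        rw [abs_mul, Nat.abs_cast]
        have : (j : ℝ) ≤ K := by exact_mod_cast hj
        rw [hbdef]
        gcongr
      · simpa using hb0
    have hcl := taskP4 taskD1 taskD2 K R ℓ m H o p (δ0 / 6) δ' (by positivity) hδ' hHac hHne hHsum hℓδ n n'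
      G G' hn0 hn0' hS.2 hS'.2
    have hcl' := taskP4 taskD1 taskD2 K R ℓ m H o p (δ0 / 6) δ' (by positivity) hδ' hHac hHne hHsum hℓδ n' n
      G' G hn0' hn0 hS'.2 hS.2
    have hclose : Close (trG K G) (trL K G) (trG K G') (trL K G') R δ0 := by
      have e : 6 * (δ0 / 6) = δ0 := by ring
      rw [← e]
      exact hcl.1
    have hnt : (nontree (trG K G) R : ℝ) ≤ δ0 * Fintype.card (Fin n) := by
      rw [Fintype.card_fin]
      refine hcl.2.trans ?_
      nlinarith
    have hnt' : (nontree (trG K G') R : ℝ) ≤ δ0 * Fintype.card (Fin n') := by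
      rw [Fintype.card_fin]
      refine hcl'.2.trans ?_
      nlinarith
    have hmain := hcore' (Fin n) (Fin n') (trG K G) (trG K G') (trL K G) (trL K G') bf
      (fin_dg_tr K G) (fin_dg_tr K G') hbfb hnt hnt' hclose
    rw [Fintype.card_fin, Fintype.card_fin] at hmain
    have hcost : ∀ (N : ℕ) (A : SimpleGraph (Fin N)), 0 < (N : ℝ) →
        (∑ v, (if dg A v ≤ K then (0 : ℝ) else dg A v) ≤ ε / (4 * c) * N) →
        |Real.log (ZeIsing β k h A) / N -
          Real.log (Zp β (oe (trG K A)) (fun v => bf (trL K A v))) / N| ≤ ε / 4 := by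
      intro N A hN hA
      have h1 := taskD3 (Fin N) A β k h K hβ
      have h2 : (β + |k| + |h|) * ∑ v, (if dg A v ≤ K then (0 : ℝ) else dg A v) ≤ ε / 4 * N := by
        have h3 : 0 ≤ ∑ v, (if dg A v ≤ K then (0 : ℝ) else dg A v) := by
          refine Finset.sum_nonneg fun v _ => ?_
          split_ifs <;> positivity
        calc (β + |k| + |h|) * ∑ v, (if dg A v ≤ K then (0 : ℝ) else dg A v)
            ≤ c * ∑ v, (if dg A v ≤ K then (0 : ℝ) else dg A v) := by
              refine mul_le_mul_of_nonneg_right ?_ h3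
              rw [hcdef]
              linarith
          _ ≤ c * (ε / (4 * c) * N) := mul_le_mul_of_nonneg_left hA hc.le
          _ = ε / 4 * N := by field_simp
      rw [← sub_div, abs_div, abs_of_pos hN, div_le_iff₀ hN]
      exact le_trans h1 h2
    have c1 := hcost n G hnr hS.1
    have c2 := hcost n' G' hnr' hS'.1
    rw [abs_le] at c1 c2 hmain ⊢
    constructor <;> linarith [c1.1, c1.2, c2.1, c2.2, hmain.1, hmain.2]

/-- interlacing of two sequences of laws -/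
noncomputable def mix (μ μ' : (n : ℕ) → SimpleGraph (Fin n) → ℝ) :
    (n : ℕ) → SimpleGraph (Fin n) → ℝ := fun n => if Even n then μ n else μ' n

lemma pr_mix (μ μ' : (n : ℕ) → SimpleGraph (Fin n) → ℝ) (n : ℕ)
    (S : SimpleGraph (Fin n) → Prop) :
    pr (mix μ μ') n S = if Even n then pr μ n S else pr μ' n S := by
  unfold pr mix
  split_ifs <;> simp

lemma isLaw_mix {μ μ' : (n : ℕ) → SimpleGraph (Fin n) → ℝ} (h : IsLaw μ) (h' : IsLaw μ') :
    IsLaw (mix μ μ') := by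
  constructor
  · intro n G
    unfold mix
    split_ifs
    · exact h.1 n G
    · exact h'.1 n G
  · intro n
    unfold mix
    split_ifs
    · exact h.2 n
    · exact h'.2 n

lemma fewHigh_mix {μ μ' : (n : ℕ) → SimpleGraph (Fin n) → ℝ} (hl : IsLaw μ) (hl' : IsLaw μ')
    (h : FewHigh μ) (h' : FewHigh μ') : FewHigh (mix μ μ') := by
  intro ε η hε hη
  obtain ⟨K, N, hN⟩ := h ε η hε hη
  obtain ⟨K', N', hN'⟩ := h' ε η hε hη
  refine ⟨max K K', max N N', fun n hn => ?_⟩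
  have hmono : ∀ (K₀ : ℕ), K₀ ≤ max K K' → ∀ G : SimpleGraph (Fin n),
      ε * n < ∑ v, (if dg G v ≤ max K K' then (0 : ℝ) else dg G v) →
      ε * n < ∑ v, (if dg G v ≤ K₀ then (0 : ℝ) else dg G v) := by
    intro K₀ hK G hG
    refine hG.trans_le (Finset.sum_le_sum fun v _ => ?_)
    by_cases h1 : dg G v ≤ K₀
    · rw [if_pos h1, if_pos (h1.trans hK)]
    · rw [if_neg h1]
      split_ifs
      · positivity
      · exact le_rfl
  rw [pr_mix]
  split_ifs
  · exact (P1h133.pr_mono hl n (hmono K (le_max_left _ _))).trans (hN n ((le_max_left _ _).trans hn))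
  · exact (P1h133.pr_mono hl' n (hmono K' (le_max_right _ _))).trans
      (hN' n ((le_max_right _ _).trans hn))

lemma tendsto_mix {f g : ℕ → ℝ} {a : ℝ} (hf : Tendsto f atTop (𝓝 a)) (hg : Tendsto g atTop (𝓝 a)) :
    Tendsto (fun n => if Even n then f n else g n) atTop (𝓝 a) := by
  rw [Metric.tendsto_atTop] at hf hg ⊢
  intro ε hε
  obtain ⟨N, hN⟩ := hf ε hε
  obtain ⟨N', hN'⟩ := hg ε hε
  refine ⟨max N N', fun n hn => ?_⟩
  split_ifs
  · exact hN n ((le_max_left _ _).trans hn)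
  · exact hN' n ((le_max_right _ _).trans hn)

lemma localLimit_mix {μ μ' : (n : ℕ) → SimpleGraph (Fin n) → ℝ} {Ω : Type} [MeasurableSpace Ω]
    {P : Measure Ω} {T : Ω → SimpleGraph ℕ} (h : LocalLimit μ P T) (h' : LocalLimit μ' P T) :
    LocalLimit (mix μ μ') P T := by
  refine ⟨h.1, fun r m H o ε hε => ?_⟩
  simp only [pr_mix]
  exact tendsto_mix (h.2 r m H o ε hε) (h'.2 r m H o ε hε)

lemma limit_even {f g : ℕ → ℝ} {a : ℝ} (h : Tendsto (fun n => if Even n then f n else g n) atTop (𝓝 a)) :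
    Tendsto (fun n => f (2 * n)) atTop (𝓝 a) := by
  have h1 : Tendsto (fun n : ℕ => 2 * n) atTop atTop :=
    tendsto_atTop_mono (fun n => by simp only [id]; omega) tendsto_id
  refine (h.comp h1).congr fun n => ?_
  simp

lemma limit_odd {f g : ℕ → ℝ} {a : ℝ} (h : Tendsto (fun n => if Even n then f n else g n) atTop (𝓝 a)) :
    Tendsto (fun n => g (2 * n + 1)) atTop (𝓝 a) := by
  have h1 : Tendsto (fun n : ℕ => 2 * n + 1) atTop atTop :=
    tendsto_atTop_mono (fun n => by simp only [id]; omega) tendsto_id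
  refine (h.comp h1).congr fun n => ?_
  have : ¬ Even (2 * n + 1) := by
    rw [Nat.not_even_iff_odd]
    exact ⟨n, rfl⟩
  simp [this]

/-- uniqueness of limits in probability along a subsequence -/
lemma inProb_unique {μ : (n : ℕ) → SimpleGraph (Fin n) → ℝ} (hl : IsLaw μ)
    {X : (n : ℕ) → SimpleGraph (Fin n) → ℝ} {a b : ℝ} (s : ℕ → ℕ)
    (ha : ∀ ε : ℝ, 0 < ε → Tendsto (fun n => pr μ (s n) (fun G => ε < |X (s n) G - a|)) atTop (𝓝 0))
    (hb : ∀ ε : ℝ, 0 < ε → Tendsto (fun n => pr μ (s n) (fun G => ε < |X (s n) G - b|)) atTop (𝓝 0)) :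
    a = b := by
  by_contra hne
  have hd : 0 < |a - b| := abs_pos.2 (sub_ne_zero.2 hne)
  have h1 := (ha (|a - b| / 4) (by positivity)).add (hb (|a - b| / 4) (by positivity))
  rw [add_zero] at h1
  obtain ⟨n, hn⟩ := (h1.eventually (gt_mem_nhds (show (0 : ℝ) < 1 by norm_num))).exists
  have c1 := P1h133.pr_compl hl (s n) (fun G => |a - b| / 4 < |X (s n) G - a|)
  have c2 := P1h133.pr_compl hl (s n) (fun G => |a - b| / 4 < |X (s n) G - b|)
  obtain ⟨G, hG1, hG2⟩ := P1h133.exists_both hl (s n)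
    (S := fun G => ¬ |a - b| / 4 < |X (s n) G - a|)
    (T := fun G => ¬ |a - b| / 4 < |X (s n) G - b|) (by linarith)
  rw [not_lt] at hG1 hG2
  have h2 : |a - b| ≤ |X (s n) G - a| + |X (s n) G - b| := by
    have e : a - b = -(X (s n) G - a) + (X (s n) G - b) := by ring
    rw [e]
    refine (abs_add_le _ _).trans ?_
    rw [abs_neg]
  linarith

/-- Universality: the limit depends only on the limiting tree. -/
theorem exists_phi {Ω : Type} [MeasurableSpace Ω] (P : Measure Ω) [IsProbabilityMeasure P]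
    (T : Ω → SimpleGraph ℕ) (hfin : ∀ ω v, {u | (T ω).Adj v u}.Finite)
    (hac : ∀ᵐ ω ∂P, (T ω).IsAcyclic) (β k h : ℝ) (hβ : 0 ≤ β) :
    ∃ φ : ℝ, ∀ μ : (n : ℕ) → SimpleGraph (Fin n) → ℝ, IsLaw μ → UniformlySparse μ →
      LocalLimit μ P T → InProb μ (fun n G => Real.log (ZeIsing β k h G) / n) φ := by
  by_cases hex : ∃ μ₀ : (n : ℕ) → SimpleGraph (Fin n) → ℝ, IsLaw μ₀ ∧ UniformlySparse μ₀ ∧
      LocalLimit μ₀ P T
  · obtain ⟨μ₀, hl₀, hs₀, hloc₀⟩ := hex
    obtain ⟨φ, hφ⟩ := final_of_fewHigh μ₀ hl₀ (taskP2 μ₀ hl₀ hs₀) P T hfin hac hloc₀ β k h hβ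
    refine ⟨φ, fun μ hl hs hloc => ?_⟩
    obtain ⟨φ₁, hφ₁⟩ := final_of_fewHigh μ hl (taskP2 μ hl hs) P T hfin hac hloc β k h hβ
    obtain ⟨φ₂, hφ₂⟩ := final_of_fewHigh (mix μ₀ μ) (isLaw_mix hl₀ hl)
      (fewHigh_mix hl₀ hl (taskP2 μ₀ hl₀ hs₀) (taskP2 μ hl hs)) P T hfin hac
      (localLimit_mix hloc₀ hloc) β k h hβ
    obtain ⟨X, hX⟩ : ∃ X : (n : ℕ) → SimpleGraph (Fin n) → ℝ,
        X = fun (n : ℕ) (G : SimpleGraph (Fin n)) => Real.log (ZeIsing β k h G) / n := ⟨_, rfl⟩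
    rw [← hX] at hφ hφ₁ hφ₂ ⊢
    have hφ₂' : ∀ ε : ℝ, 0 < ε → Tendsto (fun n => if Even n then
        pr μ₀ n (fun G => ε < |X n G - φ₂|) else
        pr μ n (fun G => ε < |X n G - φ₂|)) atTop (𝓝 0) := by
      intro ε hε
      refine (hφ₂ ε hε).congr fun n => ?_
      exact pr_mix μ₀ μ n _
    have hev : Tendsto (fun n : ℕ => 2 * n) atTop atTop :=
      tendsto_atTop_mono (fun n => by simp only [id]; omega) tendsto_id
    have hod : Tendsto (fun n : ℕ => 2 * n + 1) atTop atTop :=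
      tendsto_atTop_mono (fun n => by simp only [id]; omega) tendsto_id
    have e1 : φ = φ₂ := inProb_unique hl₀ (X := X) (fun n => 2 * n)
      (fun ε hε => (hφ ε hε).comp hev)
      (fun ε hε => limit_even (f := fun n => pr μ₀ n (fun G => ε < |X n G - φ₂|))
        (g := fun n => pr μ n (fun G => ε < |X n G - φ₂|)) (hφ₂' ε hε))
    have e2 : φ₁ = φ₂ := inProb_unique hl (X := X) (fun n => 2 * n + 1)
      (fun ε hε => (hφ₁ ε hε).comp hod)
      (fun ε hε => limit_odd (f := fun n => pr μ₀ n (fun G => ε < |X n G - φ₂|))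
        (g := fun n => pr μ n (fun G => ε < |X n G - φ₂|)) (hφ₂' ε hε))
    rw [e1, ← e2]
    exact hφ₁
  · exact ⟨0, fun μ hl hs hloc => absurd ⟨μ, hl, hs, hloc⟩ hex⟩

end Pool.Agent.Y640.IS
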